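import Mathlib
import Pool.Agent.H39.Blocks3

set_option autoImplicit false

namespace Pool.Agent.Results.MP_df8ac3_lc.DiffComplete

open Filter Topology

/-- Uniform distribution modulo one. -/
def UnifDist (x : ℕ → ℝ) : Prop :=
  ∀ u v : ℝ, 0 ≤ u → u < v → v ≤ 1 →
    Tendsto (fun N : ℕ => (((Finset.range N).filter
      (fun n => u ≤ Int.fract (x n) ∧ Int.fract (x n) < v)).card : ℝ) / (N : ℝ))
      atTop (𝓝 (v - u))

/-- The polynomials `g` of degree at most `k`, given by their coefficient vectors, for which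
`g(n) a^n` is uniformly distributed modulo one. -/
def Nset (a k : ℕ) : Set (Fin (k + 1) → ℝ) :=
  {g | UnifDist fun n => (∑ i : Fin (k + 1), g i * (n : ℝ) ^ (i : ℕ)) * (a : ℝ) ^ n}

/-- A countable intersection of countable unions of closed sets. -/
def IsPi03 {X : Type} [TopologicalSpace X] (A : Set X) : Prop :=
  ∃ F : ℕ → ℕ → Set X, (∀ i j, IsClosed (F i j)) ∧ A = ⋂ i, ⋃ j, F i j

/-- A difference of two sets of the previous class. -/
def IsD2 {X : Type} [TopologicalSpace X] (D : Set X) : Prop :=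
  ∃ A B : Set X, IsPi03 A ∧ IsPi03 B ∧ D = A \ B

theorem result (a b : ℕ) (ha : 1 < a) (hb : 1 < b)
    (hab : ∀ m n : ℕ, 0 < m → 0 < n → a ^ m ≠ b ^ n) (k : ℕ) :
    IsD2 (Nset a k \ Nset b k) ∧ ¬ IsD2 (Nset a k \ Nset b k)ᶜ := by
  have h1 : ∀ x, UnifDist x ↔ Pool.Agent.H39.Equi.UD x := by
    refine fun x => ⟨fun h u v h1 h2 h3 => ?_, fun h u v h1 h2 h3 => h u v h1 h2.le h3⟩
    rcases h2.eq_or_lt with rfl | h2
    · simp [Finset.filter_false_of_mem]
    · exact h u v h1 h2 h3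
  have h2 : ∀ c, IsPi03 (Nset c k) := fun c => by
    have := Pool.Agent.H39.Equi.pi03 (ι := Unit) (x := fun _ (g : Fin (k + 1) → ℝ) n =>
      (∑ i : Fin (k + 1), g i * (n : ℝ) ^ (i : ℕ)) * (c : ℝ) ^ n) fun _ n => by fun_prop
    simpa only [IsPi03, Nset, h1, forall_const] using this
  refine ⟨⟨_, _, h2 a, h2 b, rfl⟩, ?_⟩
  rintro ⟨_, _, ⟨F, hF, rfl⟩, ⟨G, hG, rfl⟩, h⟩
  refine Pool.Agent.H39.Blocks.not_diff (fun x y hx hy => ?_) (fun c => cond c F G)
    (fun c => by cases c <;> assumption) h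
  obtain ⟨f, h3, h4⟩ := Pool.Agent.H39.Blocks.hard2 ha hb hab x y hx hy
  refine ⟨fun w => Pi.single 0 (f w), (continuous_single 0).comp h3, fun w => ?_⟩
  rw [← h4]
  simp [Nset, h1, Fin.sum_univ_succ]

end Pool.Agent.Results.MP_df8ac3_lc.DiffComplete
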